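import Mathlib

/-!
# MP_02ec02_co: maximal cyclic sorting time by arbitrary transpositions

`t n` is the maximum over the permutations `π` of `Fin n` of the minimum over the rotations
`σ = π c^k` of `n - cyc σ`.  We show `t n ≤ n - 3` for every `n ≥ 4` divisible by `2` or by `3`,
and for general `n ≥ 4` that `t n = n - 2` forces a permutation `ρ` of `ZMod n` for which both
`ρ x + x` and `ρ x - x` are bijective (a strong complete mapping).
-/

namespace Pool.Agent.Results.MP_02ec02_co.MultiplesOfTwoOrThree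

open Equiv

/-- the number of cycles of `σ`, fixed points included (the number of parts of the partition
of `n` given by the cycle lengths of `σ`). -/
def cyc {n : ℕ} (σ : Perm (Fin n)) : ℕ := Multiset.card σ.partition.parts

/-- the sorting time of the cyclic permutation `π C_n`: the least value of `n - cyc σ` over
the elements `σ = π c^k` of the coset, where `c` is the rotation `i ↦ i + 1` of `Fin n`. -/
noncomputable def sortTime {n : ℕ} (π : Perm (Fin n)) : ℕ :=
  ⨅ k : ℕ, (n - cyc (π * finRotate n ^ k))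

/-- the maximal sorting time of the cyclic permutations of order `n`. -/
noncomputable def t (n : ℕ) : ℕ := Finset.univ.sup (fun π : Perm (Fin n) => sortTime π)

lemma cyc_eq {n : ℕ} (σ : Perm (Fin n)) :
    cyc σ = Multiset.card σ.cycleType + (n - σ.support.card) := by
  unfold cyc
  rw [Equiv.Perm.parts_partition]
  simp

/-- two fixed points give at least three cycles. -/
lemma lemA {n : ℕ} (hn : 4 ≤ n) (σ : Perm (Fin n)) (h : cyc σ ≤ 2) {x y : Fin n}
    (hx : σ x = x) (hy : σ y = y) : x = y := by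
  by_contra hxy
  rw [cyc_eq] at h
  have h1 : σ.support ⊆ Finset.univ \ {x, y} := by
    intro z hz
    rw [Equiv.Perm.mem_support] at hz
    simp only [Finset.mem_sdiff, Finset.mem_univ, true_and, Finset.mem_insert,
      Finset.mem_singleton, not_or]
    constructor
    · rintro rfl; exact hz hx
    · rintro rfl; exact hz hy
  have h2 : σ.support.card ≤ n - 2 := by
    have := Finset.card_le_card h1
    rw [Finset.card_sdiff_of_subset (Finset.subset_univ _), Finset.card_pair hxy] at this
    simpa using this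
  have h3 : Multiset.card σ.cycleType = 0 := by omega
  rw [Equiv.Perm.card_cycleType_eq_zero] at h3
  subst h3
  simp at h
  omega

/-- a fixed point and a transposed pair give at least three cycles. -/
lemma lemB {n : ℕ} (hn : 4 ≤ n) (σ : Perm (Fin n)) (h : cyc σ ≤ 2) {x y z : Fin n}
    (hz : σ z = z) (hx : σ x = y) (hy : σ y = x) : x = y := by
  by_contra hxy
  rw [cyc_eq] at h
  have h1 : σ.support ⊆ Finset.univ \ {z} := by
    intro w hw
    rw [Equiv.Perm.mem_support] at hw
    simp only [Finset.mem_sdiff, Finset.mem_univ, true_and, Finset.mem_singleton]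
    rintro rfl; exact hw hz
  have h2 : σ.support.card ≤ n - 1 := by
    have := Finset.card_le_card h1
    rw [Finset.card_sdiff_of_subset (Finset.subset_univ _), Finset.card_singleton] at this
    simpa using this
  have h4 : Multiset.card σ.cycleType ≠ 0 := by
    intro h3
    rw [Equiv.Perm.card_cycleType_eq_zero] at h3
    subst h3
    simp at h
    omega
  have h5 : Multiset.card σ.cycleType = 1 := by omega
  rw [Equiv.Perm.card_cycleType_eq_one] at h5
  have h6 : n - 1 ≤ σ.support.card := by omega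
  have h7 : σ ^ 2 = 1 := by
    rw [h5.pow_eq_one_iff]
    refine ⟨x, ?_, ?_⟩
    · rw [hx]; exact fun h => hxy h.symm
    · rw [pow_two, Equiv.Perm.mul_apply, hx, hy]
  have h8 : orderOf σ ∣ 2 := orderOf_dvd_of_pow_eq_one h7
  rw [h5.orderOf] at h8
  have := Nat.le_of_dvd (by norm_num) h8
  omega

/-- the residue class of an element of `Fin n`. -/
def e {n : ℕ} (x : Fin n) : ZMod n := (x.val : ZMod n)

lemma e_inj {n : ℕ} : Function.Injective (e (n := n)) := by
  intro x y h
  unfold e at h
  rw [ZMod.natCast_eq_natCast_iff] at h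
  have h1 := Nat.mod_eq_of_lt x.isLt
  have h2 := Nat.mod_eq_of_lt y.isLt
  have h3 : x.val % n = y.val % n := h
  rw [h1, h2] at h3
  exact Fin.ext h3

lemma e_bij {n : ℕ} (hn : 4 ≤ n) : Function.Bijective (e (n := n)) := by
  have : NeZero n := ⟨by omega⟩
  rw [Fintype.bijective_iff_injective_and_card]
  exact ⟨e_inj, by simp [ZMod.card]⟩

lemma e_rot {n : ℕ} (hn : 4 ≤ n) (x : Fin n) : e (finRotate n x) = e x + 1 := by
  obtain ⟨m, rfl⟩ : ∃ m, n = m + 1 := ⟨n - 1, by omega⟩
  rw [finRotate_apply]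
  unfold e
  rw [Fin.val_add]
  simp [ZMod.natCast_mod]

lemma e_rot_pow {n : ℕ} (hn : 4 ≤ n) (x : Fin n) (k : ℕ) :
    e ((finRotate n ^ k) x) = e x + (k : ZMod n) := by
  induction k with
  | zero => simp
  | succ k ih =>
    rw [pow_succ', Equiv.Perm.mul_apply, e_rot hn, ih]
    push_cast
    ring

/-- The core: if every rotation of `π` has at most two cycles, the differences and the sums
of `π⁻¹` are bijective. -/
lemma core {n : ℕ} (hn : 4 ≤ n) (π : Perm (Fin n))
    (h : ∀ k : ℕ, cyc (π * finRotate n ^ k) ≤ 2) :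
    Function.Injective (fun x : Fin n => e (π⁻¹ x) - e x) ∧
    Function.Injective (fun x : Fin n => e (π⁻¹ x) + e x) := by
  have : NeZero n := ⟨by omega⟩
  have key : ∀ (k : ℕ) (x y : Fin n), (k : ZMod n) = e (π⁻¹ y) - e x →
      (π * finRotate n ^ k) x = y := by
    intro k x y hk
    rw [Equiv.Perm.mul_apply]
    have : (finRotate n ^ k) x = π⁻¹ y := by
      apply e_inj
      rw [e_rot_pow hn, hk]
      ring
    rw [this]
    simp
  have hD : Function.Injective (fun x : Fin n => e (π⁻¹ x) - e x) := by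
    intro x y hxy
    simp only at hxy
    have h1 : (((e (π⁻¹ x) - e x).val : ℕ) : ZMod n) = e (π⁻¹ x) - e x :=
      ZMod.natCast_zmod_val _
    exact lemA hn _ (h (e (π⁻¹ x) - e x).val) (key _ _ _ h1) (key _ _ _ (h1.trans hxy))
  refine ⟨hD, ?_⟩
  have hDs : Function.Surjective (fun x : Fin n => e (π⁻¹ x) - e x) := by
    have := (Fintype.bijective_iff_injective_and_card
      (fun x : Fin n => e (π⁻¹ x) - e x)).2 ⟨hD, by simp [ZMod.card]⟩
    exact this.2
  intro x y hxy
  simp only at hxy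
  have h1 : (((e (π⁻¹ x) - e y).val : ℕ) : ZMod n) = e (π⁻¹ x) - e y :=
    ZMod.natCast_zmod_val _
  obtain ⟨z, hz⟩ := hDs (e (π⁻¹ x) - e y)
  simp only at hz
  have h2 : e (π⁻¹ x) - e y = e (π⁻¹ y) - e x := by linear_combination hxy
  exact lemB hn _ (h (e (π⁻¹ x) - e y).val) (key _ _ _ (h1.trans hz.symm))
    (key _ _ _ (h1.trans h2)) (key _ _ _ h1)

lemma core' {n : ℕ} (hn : 4 ≤ n) (π : Perm (Fin n))
    (h : ∀ k : ℕ, cyc (π * finRotate n ^ k) ≤ 2) :
    ∃ ρ : Perm (ZMod n), Function.Bijective (fun x => ρ x + x) ∧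
      Function.Bijective (fun x => ρ x - x) := by
  have : NeZero n := ⟨by omega⟩
  obtain ⟨h1, h2⟩ := core hn π h
  let E : Fin n ≃ ZMod n := Equiv.ofBijective e (e_bij hn)
  refine ⟨E.symm.trans (π⁻¹.trans E), ?_, ?_⟩
  · rw [← Finite.injective_iff_bijective]
    intro a b hab
    obtain ⟨x, rfl⟩ := E.surjective a
    obtain ⟨y, rfl⟩ := E.surjective b
    have : x = y := by
      apply h2
      have hab' : E (π⁻¹ (E.symm (E x))) + E x = E (π⁻¹ (E.symm (E y))) + E y := hab
      rw [E.symm_apply_apply, E.symm_apply_apply] at hab'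
      exact hab'
    rw [this]
  · rw [← Finite.injective_iff_bijective]
    intro a b hab
    obtain ⟨x, rfl⟩ := E.surjective a
    obtain ⟨y, rfl⟩ := E.surjective b
    have : x = y := by
      apply h1
      have hab' : E (π⁻¹ (E.symm (E x))) - E x = E (π⁻¹ (E.symm (E y))) - E y := hab
      rw [E.symm_apply_apply, E.symm_apply_apply] at hab'
      exact hab'
    rw [this]

lemma sum_zmod {n : ℕ} (hn : 4 ≤ n) [NeZero n] (f : ZMod n → ZMod n) :
    ∑ z : ZMod n, f z = ∑ i ∈ Finset.range n, f (i : ZMod n) := by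
  rw [← (e_bij hn).sum_comp f, ← Fin.sum_univ_eq_sum_range (fun i => f (i : ZMod n)) n]
  rfl

lemma six_sum (n : ℕ) : 6 * ∑ i ∈ Finset.range n, ((i : ℤ) ^ 2) =
    ((n : ℤ) - 1) * n * (2 * n - 1) := by
  induction n with
  | zero => simp
  | succ n ih =>
    rw [Finset.sum_range_succ, mul_add, ih]
    push_cast
    ring

/-- a cyclic group with a strong complete mapping has order prime to `6`. -/
lemma strong {n : ℕ} (hn : 4 ≤ n) (ρ : Perm (ZMod n))
    (h1 : Function.Bijective (fun x => ρ x + x)) (h2 : Function.Bijective (fun x => ρ x - x)) :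
    ¬ (2 ∣ n ∨ 3 ∣ n) := by
  have : NeZero n := ⟨by omega⟩
  have hS1 : ∑ x : ZMod n, x = 0 := by
    have a1 : ∑ x : ZMod n, (ρ x - x) = ∑ x : ZMod n, x := h2.sum_comp (fun x => x)
    have a2 : ∑ x : ZMod n, ρ x = ∑ x : ZMod n, x := ρ.bijective.sum_comp (fun x => x)
    rw [Finset.sum_sub_distrib, a2, sub_self] at a1
    exact a1.symm
  have hS2 : 2 * ∑ x : ZMod n, x ^ 2 = 0 := by
    have a1 : ∑ x : ZMod n, (ρ x - x) ^ 2 = ∑ x : ZMod n, x ^ 2 :=
      h2.sum_comp (fun x => x ^ 2)
    have a2 : ∑ x : ZMod n, (ρ x + x) ^ 2 = ∑ x : ZMod n, x ^ 2 :=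
      h1.sum_comp (fun x => x ^ 2)
    have a3 : ∑ x : ZMod n, (ρ x) ^ 2 = ∑ x : ZMod n, x ^ 2 :=
      ρ.bijective.sum_comp (fun x => x ^ 2)
    have a4 : ∑ x : ZMod n, (ρ x - x) ^ 2 + ∑ x : ZMod n, (ρ x + x) ^ 2 =
        2 * ∑ x : ZMod n, (ρ x) ^ 2 + 2 * ∑ x : ZMod n, x ^ 2 := by
      rw [← Finset.sum_add_distrib, Finset.mul_sum, Finset.mul_sum, ← Finset.sum_add_distrib]
      apply Finset.sum_congr rfl
      intro x _
      ring
    rw [a1, a2, a3] at a4
    linear_combination -a4
  rintro (hd | hd)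
  · rw [sum_zmod hn (fun x => x)] at hS1
    have b1 : ((∑ i ∈ Finset.range n, i : ℕ) : ZMod n) = 0 := by
      push_cast
      exact hS1
    rw [ZMod.natCast_eq_zero_iff] at b1
    obtain ⟨q, hq⟩ := b1
    have b2 := Finset.sum_range_id_mul_two n
    rw [hq] at b2
    have b3 : q * 2 = n - 1 := by
      apply Nat.eq_of_mul_eq_mul_left (show 0 < n by omega)
      rw [← b2]
      ring
    omega
  · rw [sum_zmod hn (fun x => x ^ 2)] at hS2
    have b1 : ((2 * ∑ i ∈ Finset.range n, ((i : ℤ) ^ 2) : ℤ) : ZMod n) = 0 := by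
      push_cast
      exact hS2
    rw [ZMod.intCast_zmod_eq_zero_iff_dvd] at b1
    obtain ⟨q, hq⟩ := b1
    have b2 := six_sum n
    have b3 : (n : ℤ) * (3 * q) = n * (((n : ℤ) - 1) * (2 * n - 1)) := by
      linear_combination b2 - 3 * hq
    have hn0 : (n : ℤ) ≠ 0 := by positivity
    have b4 := mul_left_cancel₀ hn0 b3
    obtain ⟨m, rfl⟩ := hd
    push_cast at b4
    have b5 : 3 * (q - 6 * (m : ℤ) ^ 2 + 3 * m) = 1 := by linear_combination b4
    omega

lemma le_two {n : ℕ} (hn : 4 ≤ n) (π : Perm (Fin n)) (h : n - 2 ≤ sortTime π) (k : ℕ) :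
    cyc (π * finRotate n ^ k) ≤ 2 := by
  have h1 : sortTime π ≤ n - cyc (π * finRotate n ^ k) :=
    ciInf_le (OrderBot.bddBelow _) k
  omega

/-- **Main result.**  (1) `t(n) ≤ n - 3` for every `n ≥ 4` divisible by `2` or by `3`.
(2) For every `n ≥ 4`, if `t(n) = n - 2` then the cyclic group of order `n` has a strong
complete mapping. -/
theorem result :
    (∀ n : ℕ, 4 ≤ n → (2 ∣ n ∨ 3 ∣ n) → t n ≤ n - 3) ∧
    (∀ n : ℕ, 4 ≤ n → t n = n - 2 →
      ∃ ρ : Perm (ZMod n), Function.Bijective (fun x => ρ x + x) ∧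
        Function.Bijective (fun x => ρ x - x)) := by
  constructor
  · intro n hn hd
    apply Finset.sup_le
    intro π _
    by_contra hlt
    obtain ⟨ρ, h1, h2⟩ := core' hn π (le_two hn π (by omega))
    exact strong hn ρ h1 h2 hd
  · intro n hn ht
    obtain ⟨π, _, hπ⟩ := Finset.exists_mem_eq_sup (Finset.univ : Finset (Perm (Fin n)))
      Finset.univ_nonempty (fun π => sortTime π)
    exact core' hn π (le_two hn π (by unfold t at ht; omega))

end Pool.Agent.Results.MP_02ec02_co.MultiplesOfTwoOrThree
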